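import Pool.Agent.H14.ENR.Stmts4

/-! Row NSQ of board enr, part 4. -/

set_option autoImplicit false

namespace Pool.ENR

theorem h54nsq_tel {F : Type} [Field F] (φ : F ≃+* F) (μ : F) (hμ : μ ≠ 0) (n : ℕ) :
    ∏ l ∈ Finset.range n, (φ ^ (2 * l)) (μ * (φ (φ μ))⁻¹) = μ * ((φ ^ (2 * n)) μ)⁻¹ := by
  induction n with
  | zero => simp [hμ]
  | succ n ih =>
    rw [Finset.prod_range_succ, ih, map_mul, map_inv₀]
    have h1 : (φ ^ (2 * n)) (φ (φ μ)) = (φ ^ (2 * (n + 1))) μ := by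
      have : (φ ^ (2 * (n + 1))) = φ ^ (2 * n) * (φ * φ) := by
        rw [show 2 * (n + 1) = 2 * n + 2 from by ring, pow_add, pow_two]
      rw [this]
      rfl
    rw [h1]
    have h2 : (φ ^ (2 * n)) μ ≠ 0 := (map_ne_zero_iff _ (φ ^ (2 * n)).injective).2 hμ
    field_simp

theorem nsq_thm : NSQStmt := by
  intro F _ m a ν φ h2 hm hφ ha hprod hν hsq
  obtain ⟨μ, rfl⟩ := hsq
  have hμ : μ ≠ 0 := by
    rintro rfl
    apply ha
    have : a * a = 0 := by rw [← hν]; ring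
    exact mul_self_eq_zero.1 this
  have hφμ : φ μ ≠ 0 := (map_ne_zero_iff _ φ.injective).2 hμ
  have hφφμ : φ (φ μ) ≠ 0 := (map_ne_zero_iff _ φ.injective).2 hφμ
  have hsqr : (μ * φ μ) * (μ * φ μ) = a * a := by
    rw [← hν, map_mul]; ring
  have hkey : a * (φ a)⁻¹ = μ * (φ (φ μ))⁻¹ := by
    rcases mul_self_eq_mul_self_iff.1 hsqr with h | h
    · rw [← h, map_mul]
      field_simp
    · have h' : a = -(μ * φ μ) := by rw [h, neg_neg]
      rw [h', map_neg, map_mul]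
      field_simp
  rw [hkey, h54nsq_tel φ μ hμ] at hprod
  have hn : 2 * 2 ^ (m - 1) = 2 ^ m := by
    obtain ⟨k, rfl⟩ := Nat.exists_eq_add_of_le hm
    rw [Nat.add_sub_cancel_left, add_comm 1 k, pow_succ]; ring
  rw [hn, hφ] at hprod
  have h1 : (1 : F ≃+* F) μ = μ := rfl
  rw [h1, mul_inv_cancel₀ hμ] at hprod
  apply h2
  have : (2 : F) = 1 + 1 := by norm_num
  rw [this]
  nth_rewrite 1 [hprod]
  ring

end Pool.ENR
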