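import Pool.Agent.H29.ENR.Stmts

/-!
Row OPG of board enr (MP_d15c96_al): the induction, copied from `H81/ENG/Main.lean` (`op_main`), with
`PFactors` replaced by `CFactors`.
-/

set_option autoImplicit false

namespace Pool.ENR

open Pool.Agent.H81.ENG

theorem opg_compProp_congr {p : ℕ} {T T' : Type} [Group T] [Group T'] (e : T ≃* T')
    (h : CompProp p T) : CompProp p T' := by
  intro G _ _ S f y N d v h1 h2 h3 h4 h5 h6
  exact h G S (f.trans e.symm) y N d v h1 h2 h3 h4 h5 h6

theorem opg_quotient {G : Type} [Group G] {p : ℕ} (h : CFactors G p) (M : Subgroup G)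
    [M.Normal] : CFactors (G ⧸ M) p := by
  intro H hH K hK hs hpd
  set H' := H.comap (QuotientGroup.mk' M) with hH'
  have hsub : H'.IsSubnormal := hH.comap (QuotientGroup.mk' M)
  let f : H' →* H := (QuotientGroup.mk' M).subgroupComap H
  have hf : Function.Surjective f := by
    rintro ⟨x, hx⟩
    obtain ⟨x, rfl⟩ := QuotientGroup.mk_surjective x
    exact ⟨⟨x, hx⟩, rfl⟩
  let g : H' →* H ⧸ K := (QuotientGroup.mk' K).comp f
  have hg : Function.Surjective g := (QuotientGroup.mk'_surjective K).comp hf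
  let e : (H' ⧸ g.ker) ≃* (H ⧸ K) := QuotientGroup.quotientKerEquivOfSurjective g hg
  have hs' : IsSimpleGroup (H' ⧸ g.ker) := e.isSimpleGroup
  have hpd' : p ∣ Nat.card (H' ⧸ g.ker) := by rw [Nat.card_congr e.toEquiv]; exact hpd
  rcases h H' hsub g.ker inferInstance hs' hpd' with h1 | h1
  · left
    intro a b
    obtain ⟨a, rfl⟩ := e.surjective a
    obtain ⟨b, rfl⟩ := e.surjective b
    rw [← map_mul, ← map_mul, h1]
  · exact Or.inr (opg_compProp_congr e h1)

theorem opg_component {G : Type} [Group G] {p : ℕ} (h : CFactors G p) {M T : Subgroup G}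
    [hM : M.Normal] (hTM : T ≤ M) (hn : ∀ m ∈ M, ∀ t ∈ T, m * t * m⁻¹ ∈ T)
    (hT : IsSimpleGroup T) (hpT : p ∣ Nat.card T) (hnc : ¬ ∀ a ∈ T, ∀ b ∈ T, a * b = b * a) :
    CompProp p T := by
  have hsub : T.IsSubnormal := by
    refine Subgroup.IsSubnormal.step T M hTM hM.isSubnormal ?_
    constructor
    intro t ht m
    exact hn m m.2 t ht
  let e : (T ⧸ (⊥ : Subgroup T)) ≃* T := QuotientGroup.quotientBot
  have hs : IsSimpleGroup (T ⧸ (⊥ : Subgroup T)) := e.isSimpleGroup
  have hpd' : p ∣ Nat.card (T ⧸ (⊥ : Subgroup T)) := by rw [Nat.card_congr e.toEquiv]; exact hpT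
  rcases h T hsub ⊥ inferInstance hs hpd' with h1 | h1
  · exfalso
    apply hnc
    intro a ha b hb
    have h2 := h1 (e.symm ⟨a, ha⟩) (e.symm ⟨b, hb⟩)
    rw [← map_mul, ← map_mul] at h2
    exact congrArg Subtype.val (e.symm.injective h2)
  · exact opg_compProp_congr e h1

theorem opg_aux {p : ℕ} (hp : p.Prime) :
    ∀ (n : ℕ) (G : Type) [Group G] [Finite G], Nat.card G = n → CFactors G p → ∀ (d : ℕ),
      GLaw G d → ∀ (y : G) (N : ℕ), y ^ (p ^ N) = 1 → ∀ (v : ℕ),
      ¬ p ^ (v + 1) ∣ ed d → ∃ P : Subgroup G, P.Normal ∧ IsPGroup p P ∧ y ^ (p ^ v) ∈ P := by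
  intro n
  induction n using Nat.strong_induction_on with
  | _ n ih =>
  intro G _ _ hcard hG d hL y N hy v hv
  have : Fact p.Prime := ⟨hp⟩
  by_cases htriv : ∃ g : G, g ≠ 1
  swap
  · push Not at htriv
    exact ⟨⊥, inferInstance, IsPGroup.of_bot, by rw [htriv (y ^ p ^ v)]; exact Subgroup.one_mem _⟩
  obtain ⟨M, hMn, hMb, hmin⟩ := exists_min_normal htriv
  have := hMn
  have hlt : Nat.card (G ⧸ M) < n := by
    have h1 := Subgroup.card_eq_card_quotient_mul_card_subgroup M
    have h2 : 1 < Nat.card M := (Subgroup.one_lt_card_iff_ne_bot M).mpr hMb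
    have h3 : 0 < Nat.card (G ⧸ M) := Nat.card_pos
    rw [← hcard, h1]
    exact lt_mul_of_one_lt_right h3 h2
  obtain ⟨Pb, hPbn, hPbp, hzPb⟩ := ih _ hlt (G ⧸ M) rfl (opg_quotient hG M) d (hL.quotient M)
    (QuotientGroup.mk' M y) N (by rw [← map_pow, hy, map_one]) v hv
  have := hPbn
  set L := Pb.comap (QuotientGroup.mk' M) with hLdef
  have hLn : L.Normal := inferInstance
  have hzL : y ^ (p ^ v) ∈ L := by
    rw [hLdef, Subgroup.mem_comap, map_pow]; exact hzPb
  have hLM : ∀ x ∈ L, ∃ j, x ^ (p ^ j) ∈ M := fun x hx => pullback hPbp hx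
  set C := L ⊓ Subgroup.centralizer (M : Set G) with hC
  have hCn : C.Normal := by
    rw [hC]; infer_instance
  have hCmem : ∀ x, x ∈ C ↔ x ∈ L ∧ ∀ m ∈ M, m * x = x * m := by
    intro x
    rw [hC, Subgroup.mem_inf, Subgroup.mem_centralizer_iff]
    rfl
  by_cases hpM : p ∣ Nat.card M
  swap
  · -- coprime case
    have hz := coprime_case hL hp hpM hy hv
    have hzC : y ^ (p ^ v) ∈ C := (hCmem _).mpr ⟨hzL, fun m hm => (hz m hm).symm⟩
    let f0 : C →* G ⧸ M := (QuotientGroup.mk' M).comp C.subtype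
    have hfp : IsPGroup p f0.range := by
      refine IsPGroup.to_le hPbp ?_
      rintro _ ⟨x, rfl⟩
      exact ((hCmem x).mp x.2).1
    have hnil0 : Group.IsNilpotent f0.range := hfp.isNilpotent
    have hnil : Group.IsNilpotent C := by
      refine isNilpotent_of_ker_le_center f0.rangeRestrict ?_
      intro x hx
      rw [MonoidHom.ker_rangeRestrict] at hx
      have hxM : (x : G) ∈ M := (QuotientGroup.eq_one_iff _).mp hx
      rw [Subgroup.mem_center_iff]
      intro g
      apply Subtype.ext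
      exact (((hCmem g).mp g.2).2 x hxM).symm
    let S : Sylow p C := Classical.arbitrary _
    have hSc : (S : Subgroup C).Characteristic := S.characteristic_of_normal inferInstance
    refine ⟨(S : Subgroup C).map C.subtype, ConjAct.normal_of_characteristic_of_normal,
      S.isPGroup'.map _, ?_⟩
    refine ⟨⟨y ^ (p ^ v), hzC⟩, ?_, rfl⟩
    have hzp : IsPGroup p (Subgroup.zpowers (⟨y ^ (p ^ v), hzC⟩ : C)) := by
      rw [IsPGroup.iff_card]
      rw [Nat.card_zpowers]
      have h1 : orderOf (⟨y ^ (p ^ v), hzC⟩ : C) ∣ p ^ N := by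
        apply orderOf_dvd_of_pow_eq_one
        apply Subtype.ext
        show (y ^ (p ^ v)) ^ (p ^ N) = 1
        rw [← pow_mul, mul_comm, pow_mul, hy, one_pow]
      obtain ⟨e, -, he⟩ := (Nat.dvd_prime_pow hp).mp h1
      exact ⟨e, he⟩
    obtain ⟨Q, hQ⟩ := hzp.exists_le_sylow
    have := Sylow.unique_of_normal S inferInstance
    have hQS : Q = S := Subsingleton.elim _ _
    rw [← hQS]
    exact hQ (Subgroup.mem_zpowers _)
  by_cases hab : ∀ a ∈ M, ∀ b ∈ M, a * b = b * a
  · -- abelian, elementary abelian p-group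
    let Om : Subgroup G :=
      { carrier := {x | x ∈ M ∧ x ^ p = 1}
        one_mem' := ⟨M.one_mem, one_pow p⟩
        mul_mem' := by
          rintro a b ⟨ha, ha'⟩ ⟨hb, hb'⟩
          refine ⟨M.mul_mem ha hb, ?_⟩
          rw [(show Commute a b from hab a ha b hb).mul_pow, ha', hb', one_mul]
        inv_mem' := by
          rintro a ⟨ha, ha'⟩
          exact ⟨M.inv_mem ha, by rw [inv_pow, ha', inv_one]⟩ }
    have hOmn : Om.Normal := by
      constructor
      rintro x ⟨hx, hx'⟩ g
      exact ⟨hMn.conj_mem x hx g, by rw [conj_pow, hx']; simp⟩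
    rcases hmin Om hOmn (fun x hx => hx.1) with hO | hO
    · exfalso
      obtain ⟨x, hx⟩ := exists_prime_orderOf_dvd_card' (G := M) p hpM
      have h1 : (x : G) ∈ Om := by
        refine ⟨x.2, ?_⟩
        have := pow_orderOf_eq_one x
        rw [hx] at this
        exact congrArg Subtype.val this
      rw [hO, Subgroup.mem_bot] at h1
      have h6 : x = 1 := Subtype.ext h1
      rw [h6, orderOf_one] at hx
      exact hp.one_lt.ne hx
    · refine ⟨L, hLn, ?_, hzL⟩
      rintro ⟨x, hx⟩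
      obtain ⟨j, hj⟩ := hLM x hx
      refine ⟨j + 1, ?_⟩
      apply Subtype.ext
      show x ^ (p ^ (j + 1)) = 1
      rw [pow_succ, pow_mul]
      rw [← hO] at hj
      exact hj.2
  · -- nonabelian
    have hz : ∀ m ∈ M, y ^ (p ^ v) * m = m * y ^ (p ^ v) := by
      by_contra hcon
      push Not at hcon
      obtain ⟨T, hTM, hTn, hTs, hTnc, ⟨t, ht, htz⟩, hTg⟩ :=
        Pool.ENG81.exists_comp M hmin hab (y ^ (p ^ v)) hcon
      have hpT := p_dvd_comp hmin hab hTM hTs hTnc hTg hp hpM
      have hCP : CompProp p T := opg_component hG hTM hTn hTs hpT hTnc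
      exact htz (hCP G T (MulEquiv.refl T) y N d v hy hTs hTnc hTg hL hv t ht)
    have hzC : y ^ (p ^ v) ∈ C := (hCmem _).mpr ⟨hzL, fun m hm => (hz m hm).symm⟩
    refine ⟨C, hCn, ?_, hzC⟩
    have hcap : M ⊓ Subgroup.centralizer (M : Set G) = ⊥ := by
      rcases hmin (M ⊓ Subgroup.centralizer (M : Set G)) inferInstance inf_le_left with h1 | h1
      · exact h1
      · exfalso
        apply hab
        intro a ha b hb
        have h2 : b ∈ M ⊓ Subgroup.centralizer (M : Set G) := by rw [h1]; exact hb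
        exact (Subgroup.mem_centralizer_iff.mp h2.2) a ha
    rintro ⟨x, hx⟩
    obtain ⟨hxL, hxc⟩ := (hCmem x).mp hx
    obtain ⟨j, hj⟩ := hLM x hxL
    refine ⟨j, ?_⟩
    apply Subtype.ext
    show x ^ (p ^ j) = 1
    have h3 : x ^ (p ^ j) ∈ M ⊓ Subgroup.centralizer (M : Set G) := by
      refine ⟨hj, ?_⟩
      show x ^ (p ^ j) ∈ Subgroup.centralizer (M : Set G)
      rw [Subgroup.mem_centralizer_iff]
      intro m hm
      exact ((show Commute m x from hxc m hm).pow_right _).eq
    rw [hcap, Subgroup.mem_bot] at h3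
    exact h3



theorem opg_thm : OPGStmt := by
  intro p G _ _ hp hG d hL y N hy v hv
  exact opg_aux hp (Nat.card G) G rfl hG d hL y N hy v hv

end Pool.ENR
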