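import Pool.Agent.H36.ENR.Stmts2

/-!
Row UTV of board enr (MP_d15c96_al): the unipotent count for twisted periodic sequences.
-/

set_option autoImplicit false

namespace Pool.ENR

open Pool.Agent.H81.ENG Pool.Agent.H55.NEU

/-- the fixed field of `φ` -/
abbrev utvK {F : Type} [Field F] (φ : F ≃+* F) : Subfield F :=
  FixedPoints.subfield (Subgroup.zpowers φ) F

theorem utv_fix {F : Type} [Field F] (φ : F ≃+* F) (c : utvK φ) : φ (c : F) = c :=
  c.2 ⟨φ, Subgroup.mem_zpowers φ⟩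

/-- twisted periodic sequences in `F` -/
def utvV {F : Type} [Field F] (φ : F ≃+* F) (k : ℕ) : Submodule (utvK φ) (ℤ → F) where
  carrier := {x | ∀ i : ℤ, x (i + k) = φ (x i)}
  zero_mem' := fun i => by simp
  add_mem' := by
    intro x y hx hy i
    rw [Pi.add_apply, Pi.add_apply, hx, hy, map_add]
  smul_mem' := by
    intro c x hx i
    show (c : F) * x (i + k) = φ ((c : F) * x i)
    rw [map_mul, hx, utv_fix]

theorem utv_mem {F : Type} [Field F] {φ : F ≃+* F} {k : ℕ} (x : utvV φ k) (i : ℤ) :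
    (x : ℤ → F) (i + k) = φ ((x : ℤ → F) i) := x.2 i

theorem utv_zero_iff {F : Type} [Field F] {φ : F ≃+* F} {k : ℕ} (x : utvV φ k) (n : ℤ) :
    ∀ i : ℤ, (x : ℤ → F) (i + k * n) = 0 ↔ (x : ℤ → F) i = 0 := by
  induction n using Int.induction_on with
  | zero => intro i; simp
  | succ n ih =>
    intro i
    have h : i + k * ((n : ℤ) + 1) = (i + k * n) + k := by ring
    rw [h, utv_mem, ← ih i]
    exact map_eq_zero_iff φ φ.injective
  | pred n ih =>
    intro i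
    have h : i + k * (-(n : ℤ)) = (i + k * (-(n : ℤ) - 1)) + k := by ring
    rw [← ih i, h, utv_mem]
    exact (map_eq_zero_iff φ φ.injective).symm

/-- restriction to one period -/
def utvR {F : Type} [Field F] (φ : F ≃+* F) (k : ℕ) : utvV φ k →ₗ[utvK φ] (Fin k → F) where
  toFun x l := (x : ℤ → F) ((l : ℕ) : ℤ)
  map_add' _ _ := rfl
  map_smul' _ _ := rfl

theorem utvR_inj {F : Type} [Field F] (φ : F ≃+* F) {k : ℕ} (hk : 0 < k) :
    Function.Injective (utvR φ k) := by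
  rw [← LinearMap.ker_eq_bot, LinearMap.ker_eq_bot']
  intro x hx
  apply Subtype.ext
  funext i
  have h0 : ∀ l : ℕ, l < k → (x : ℤ → F) l = 0 := fun l hl => congrFun hx ⟨l, hl⟩
  have hk' : (0 : ℤ) < k := by exact_mod_cast hk
  have h1 : i % (k : ℤ) + k * (i / k) = i := Int.emod_add_mul_ediv i k
  have h2 := utv_zero_iff x (i / k) (i % k)
  rw [h1] at h2
  rw [Submodule.coe_zero, Pi.zero_apply, h2]
  have h3 : ((i % (k : ℤ)).toNat : ℤ) = i % k := Int.toNat_of_nonneg (Int.emod_nonneg _ hk'.ne')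
  rw [← h3]
  apply h0
  have h4 := Int.emod_lt_of_pos i hk'
  omega

theorem utv_finite {F : Type} [Field F] [Finite F] (φ : F ≃+* F) {k : ℕ} (hk : 0 < k) :
    Finite (utvV φ k) :=
  Finite.of_injective _ (utvR_inj φ hk)

theorem utv_finrank {F : Type} [Field F] [Finite F] (φ : F ≃+* F) {k n : ℕ} (hk : 0 < k)
    (hn : orderOf φ = n) : Module.finrank (utvK φ) (utvV φ k) ≤ k * n := by
  have h1 : Module.finrank (utvK φ) (utvV φ k) ≤ Module.finrank (utvK φ) (Fin k → F) :=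
    LinearMap.finrank_le_finrank_of_injective (utvR_inj φ hk)
  have h2 : Module.finrank (utvK φ) F = n := by
    have i0 : Finite (F ≃+* F) :=
      Finite.of_injective (fun e : F ≃+* F => (e : F → F)) DFunLike.coe_injective
    let i1 : Fintype (Subgroup.zpowers φ) := Fintype.ofFinite _
    rw [FixedPoints.finrank_eq_card, ← Nat.card_eq_fintype_card, Nat.card_zpowers, hn]
  have h3 : Module.finrank (utvK φ) (Fin k → F) = k * n := by
    rw [Module.finrank_pi_fintype]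
    simp [h2]
  rw [h3] at h1
  exact h1

/-- the shift -/
def utvS {F : Type} [Field F] (φ : F ≃+* F) (k : ℕ) : utvV φ k →ₗ[utvK φ] utvV φ k where
  toFun x := ⟨fun i => (x : ℤ → F) (i + 1), fun i => by
    show (x : ℤ → F) (i + k + 1) = φ ((x : ℤ → F) (i + 1))
    rw [← utv_mem, show i + k + 1 = i + 1 + k by ring]⟩
  map_add' _ _ := rfl
  map_smul' _ _ := rfl

/-- the inverse shift -/
def utvS' {F : Type} [Field F] (φ : F ≃+* F) (k : ℕ) : utvV φ k →ₗ[utvK φ] utvV φ k where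
  toFun x := ⟨fun i => (x : ℤ → F) (i - 1), fun i => by
    show (x : ℤ → F) (i + k - 1) = φ ((x : ℤ → F) (i - 1))
    rw [← utv_mem, show i + k - 1 = i - 1 + k by ring]⟩
  map_add' _ _ := rfl
  map_smul' _ _ := rfl

/-- the constant sequence -/
def utvC {F : Type} [Field F] (φ : F ≃+* F) (k : ℕ) (t : F) (ht : φ t = t) : utvV φ k :=
  ⟨fun _ => t, fun _ => ht.symm⟩

section main

variable {Γ F : Type} [Group Γ] [Field F] {φ : F ≃+* F} {τ : MulAut Γ} {u : F → Γ} {χ : Γ → F}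

theorem utv_chi (hu : Function.Injective u) (hc : ∀ g x, g * u x * g⁻¹ = u (χ g * x))
    (hτ : ∀ x, τ (u x) = u (φ x)) (g : Γ) : χ (τ g) = φ (χ g) := by
  have h1 := congrArg τ (hc g 1)
  rw [map_mul, map_mul, map_inv, hτ, hτ, hc, map_one, mul_one, mul_one] at h1
  exact hu h1

/-- the embedding of `utvV` into `TSq` -/
def utvE (hτ : ∀ x, τ (u x) = u (φ x)) (k : ℕ) (x : utvV φ k) : TSq τ k :=
  ⟨fun i => u ((x : ℤ → F) i), fun i => by
    show u ((x : ℤ → F) (i + k)) = τ (u ((x : ℤ → F) i))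
    rw [hτ, utv_mem]⟩

/-- conjugation -/
def utvG (hu : Function.Injective u) (hc : ∀ g x, g * u x * g⁻¹ = u (χ g * x))
    (hτ : ∀ x, τ (u x) = u (φ x)) (k : ℕ) (g : TSq τ k) : utvV φ k →ₗ[utvK φ] utvV φ k where
  toFun x := ⟨fun i => χ ((g : ℤ → Γ) i) * (x : ℤ → F) i, fun i => by
    show χ ((g : ℤ → Γ) (i + k)) * (x : ℤ → F) (i + k) =
      φ (χ ((g : ℤ → Γ) i) * (x : ℤ → F) i)
    rw [g.2 i, utv_chi hu hc hτ, utv_mem, map_mul]⟩
  map_add' x y := by
    apply Subtype.ext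
    funext i
    exact mul_add _ _ _
  map_smul' a x := by
    apply Subtype.ext
    funext i
    exact mul_left_comm _ _ _

theorem utv_main (hUNK : UNKStmt) [Finite F] {p b j : ℕ} [Fact p.Prime] [CharP F p]
    (hφ : orderOf φ = p ^ j) (hu : Function.Injective u) (hadd : ∀ x y, u (x + y) = u x * u y)
    (hc : ∀ g x, g * u x * g⁻¹ = u (χ g * x)) (hχ : ∀ g, χ g = 1 → ∃ x, g = u x)
    (hτ : ∀ x, τ (u x) = u (φ x)) (S : MulAut (TSq τ (p ^ b)))
    (s s' : utvV φ (p ^ b) →ₗ[utvK φ] utvV φ (p ^ b))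
    (hs : ∀ v, S (utvE hτ _ v) = utvE hτ _ (s v)) (hs' : ∀ v, S⁻¹ (utvE hτ _ v) = utvE hτ _ (s' v))
    {t : F} (ht : t ≠ 0) (hφt : φ t = t) (hz : s (utvC φ (p ^ b) t hφt) = utvC φ (p ^ b) t hφt)
    (hM : ∀ (x : TSq τ (p ^ b)) (i : ℤ), (((S ^ (p ^ (b + j))) x : TSq τ (p ^ b)) : ℤ → Γ) i =
      (u t)⁻¹ * (x : ℤ → Γ) i * u t)
    (ξ : TSq τ (p ^ b)) {r d : ℕ} (hr : 0 < r) (hξ : ∃ i : ℤ, χ ((ξ : ℤ → Γ) i) ≠ 1)
    (hrel : ∀ i : ℤ, χ ((((ef S)^[r] ξ * (S ξ)⁻¹ : TSq τ (p ^ b)) : ℤ → Γ) i) = 1)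
    (hL : L S d) : p ^ (b + j + 1) ∣ d := by
  have hk : 0 < p ^ b := pow_pos (Fact.out : p.Prime).pos b
  have i1 : Finite (utvV φ (p ^ b)) := utv_finite φ hk
  have i2 : FiniteDimensional (utvK φ) (utvV φ (p ^ b)) := Module.Finite.of_finite
  have i3 : CharP (utvK φ) p :=
    ((algebraMap (utvK φ) F).charP_iff (algebraMap (utvK φ) F).injective p).2 inferInstance
  have hfr : Module.finrank (utvK φ) (utvV φ (p ^ b)) ≤ p ^ (b + j) := by
    rw [pow_add]
    exact utv_finrank φ hk hφ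
  refine hUNK (TSq τ (p ^ b)) (utvV φ (p ^ b)) (utvK φ) p (b + j) hfr (utvE hτ (p ^ b)) S s s'
    (utvG hu hc hτ (p ^ b)) ?_ ?_ hs hs' ?_ (utvC φ (p ^ b) t hφt) hz ?_ ξ r hr ?_ ?_ d hL
  · intro x y h
    apply Subtype.ext
    funext i
    exact hu (congrFun (congrArg Subtype.val h) i)
  · intro v w
    apply Subtype.ext
    funext i
    exact hadd _ _
  · intro g v
    apply Subtype.ext
    funext i
    exact hc _ _
  · intro x
    apply Subtype.ext
    funext i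
    exact hM x i
  · intro h
    obtain ⟨i, hi⟩ := hξ
    apply hi
    have h1 : u t * (ξ : ℤ → Γ) i = (ξ : ℤ → Γ) i * u t := congrFun (congrArg Subtype.val h) i
    have h2 := hc ((ξ : ℤ → Γ) i) t
    rw [← h1, mul_inv_cancel_right] at h2
    have h3 := hu h2
    exact (mul_eq_right₀ ht).mp h3.symm
  · have h1 : ∀ i : ℤ, ∃ x, (((ef S)^[r] ξ * (S ξ)⁻¹ : TSq τ (p ^ b)) : ℤ → Γ) i = u x :=
      fun i => hχ _ (hrel i)
    choose w hw using h1
    refine ⟨⟨w, fun i => ?_⟩, ?_⟩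
    · apply hu
      rw [← hw, ← hτ, ← hw]
      exact ((ef S)^[r] ξ * (S ξ)⁻¹ : TSq τ (p ^ b)).2 i
    · apply Subtype.ext
      funext i
      exact hw i

end main

theorem utv_thm (hUNK : UNKStmt) (hSQP : SQPStmt) : UTVStmt := by
  intro Γ F _ _ _ _ p b j _ _ φ τ u χ t0 hφ hu hadd hc hχ hτ ht0 hφt hconj ξ r d hr hξ hcase
  have hneg : ∀ x, u (-x) = (u x)⁻¹ := by
    intro x
    have h0 : u 0 = 1 := by
      have h := hadd 0 0
      rw [add_zero] at h
      exact (mul_eq_left.mp h.symm)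
    have h := hadd (-x) x
    rw [neg_add_cancel, h0] at h
    exact eq_inv_of_mul_eq_one_left h.symm
  have hpow : ∀ (x : TSq τ (p ^ b)) (i : ℤ),
      (((tsh τ (p ^ b) ^ (p ^ (b + j))) x : TSq τ (p ^ b)) : ℤ → Γ) i =
      u t0 * (x : ℤ → Γ) i * (u t0)⁻¹ := by
    intro x i
    rw [(hSQP Γ τ (p ^ b) (p ^ (b + j)) x i).1, ← hconj,
      ← (hSQP Γ τ (p ^ b) (p ^ j) x i).2.1,
      show i + ((p ^ (b + j) : ℕ) : ℤ) = i + ((p ^ b : ℕ) : ℤ) * ((p ^ j : ℕ) : ℤ) by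
        rw [pow_add]; push_cast; ring]
  have hsh : ∀ v : utvV φ (p ^ b), tsh τ (p ^ b) (utvE hτ _ v) = utvE hτ _ (utvS φ _ v) := by
    intro v
    apply Subtype.ext
    funext i
    rfl
  have hsh' : ∀ v : utvV φ (p ^ b), (tsh τ (p ^ b))⁻¹ (utvE hτ _ v) =
      utvE hτ _ (utvS' φ _ v) := by
    intro v
    apply Subtype.ext
    funext i
    rw [(hSQP Γ τ (p ^ b) 1 (utvE hτ _ v) i).2.2]
    rfl
  rcases hcase with ⟨h1, h2⟩ | ⟨h1, h2⟩
  · refine utv_main hUNK hφ hu hadd hc hχ hτ (tsh τ (p ^ b)) (utvS φ _) (utvS' φ _) hsh hsh'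
      (neg_ne_zero.mpr ht0) (by rw [map_neg, hφt]) rfl ?_ ξ hr hξ h1 h2
    intro x i
    rw [hpow, hneg, inv_inv]
  · refine utv_main hUNK hφ hu hadd hc hχ hτ (tsh τ (p ^ b))⁻¹ (utvS' φ _) (utvS φ _) hsh'
      (by rw [inv_inv]; exact hsh) ht0 hφt rfl ?_ ξ hr hξ h1 h2
    intro x i
    have h3 := hpow (((tsh τ (p ^ b))⁻¹ ^ (p ^ (b + j))) x) i
    have h4 : (tsh τ (p ^ b) ^ (p ^ (b + j))) (((tsh τ (p ^ b))⁻¹ ^ (p ^ (b + j))) x) = x := by
      rw [inv_pow, MulAut.apply_inv_self]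
    rw [h4] at h3
    rw [h3]
    group

end Pool.ENR
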