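import Pool.Agent.H36.ENR.Stmts2

/-!
Row UNK of board enr (MP_d15c96_al): copy of `lin_part` and `unip` of `H81/ENG/Unip.lean` over a field `K`
of characteristic `p`.
-/

set_option autoImplicit false

namespace Pool.ENR

open Pool.Agent.H81.ENG Pool.Agent.H55.NEU

theorem unk_zero {B V : Type} [Group B] [AddCommGroup V] {e : V → B}
    (he : ∀ v w, e (v + w) = e v * e w) : e 0 = 1 := by
  have h := he 0 0
  rw [add_zero] at h
  exact (mul_eq_left.mp h.symm)

theorem unk_neg {B V : Type} [Group B] [AddCommGroup V] {e : V → B}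
    (he : ∀ v w, e (v + w) = e v * e w) (v : V) : e (-v) = (e v)⁻¹ := by
  have h := he (-v) v
  rw [neg_add_cancel, unk_zero he] at h
  exact eq_inv_of_mul_eq_one_left h.symm

theorem unk_comm {B V : Type} [Group B] [AddCommGroup V] {e : V → B}
    (he : ∀ v w, e (v + w) = e v * e w) (v w : V) : e v * e w = e w * e v := by
  rw [← he, ← he, add_comm]

theorem unk_nsmul {B V : Type} [Group B] [AddCommGroup V] {e : V → B}
    (he : ∀ v w, e (v + w) = e v * e w) (n : ℕ) (v : V) : e (n • v) = e v ^ n := by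
  induction n with
  | zero => rw [zero_smul, pow_zero, unk_zero he]
  | succ n ih => rw [succ_nsmul, he, ih, pow_succ]

theorem unk_lin {B V K : Type} [Group B] [Field K] [AddCommGroup V] [Module K V]
    {e : V → B} {S : MulAut B} {s : V →ₗ[K] V} {c : B → V →ₗ[K] V}
    (he : ∀ v w, e (v + w) = e v * e w) (hs : ∀ v, S (e v) = e (s v))
    (hc : ∀ g v, g * e v * g⁻¹ = e (c g v)) {z : V} (hz : s z = z) (ξ : B) (j : ℕ) :
    ∃ a : V →ₗ[K] V, (∀ v, (ef S)^[j] (e v * ξ) = e (a v) * (ef S)^[j] ξ) ∧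
      s (a z) = a z ∧ (0 < j → a z = 0) := by
  induction j with
  | zero => exact ⟨LinearMap.id, fun n => rfl, hz, fun h => absurd h (lt_irrefl 0)⟩
  | succ j ih =>
    obtain ⟨a, ha, haz, -⟩ := ih
    have hz0 : (c ((ef S)^[j] ξ)⁻¹ ∘ₗ ((s ∘ₗ a) - a)) z = 0 := by
      rw [LinearMap.comp_apply, LinearMap.sub_apply, LinearMap.comp_apply, haz, sub_self, map_zero]
    refine ⟨c ((ef S)^[j] ξ)⁻¹ ∘ₗ ((s ∘ₗ a) - a), fun v => ?_, ?_, fun _ => hz0⟩
    · rw [Function.iterate_succ_apply', Function.iterate_succ_apply', ha, LinearMap.comp_apply,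
        ← hc, LinearMap.sub_apply, LinearMap.comp_apply, sub_eq_add_neg, he,
        unk_comm he (s (a v)) (-(a v)), unk_neg he]
      generalize (ef S)^[j] ξ = g
      show (e (a v) * g)⁻¹ * S (e (a v) * g) = _ * (g⁻¹ * S g)
      rw [map_mul, hs]
      group
    · rw [hz0, map_zero]

theorem unk_thm (hAFK : AFKStmt) : UNKStmt := by
  intro B V K _ _ _ _ _ _ p μ hp _ hfin e S s s' c hinj he hs hs' hc z hsz hM ξ r hr hnc hrel d hL
  by_contra hnd
  obtain ⟨a, ha, -, haz⟩ := unk_lin he hs hc hsz ξ r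
  replace haz := haz hr
  obtain ⟨w, hw⟩ := hrel
  have hsz' : S (e z) = e z := by rw [hs, hsz]
  -- the affine map
  have hu0 : e (s' w) = S⁻¹ ((ef S)^[r] ξ) * ξ⁻¹ := by
    rw [← hs', ← hw, map_mul, map_inv, MulAut.inv_apply_self]
  set u0 : V := s' w with hu0def
  let φ : V → V := fun v => (s' ∘ₗ a) v + u0
  let Φ : B → B := fun x => S⁻¹ ((ef S)^[r] x)
  have hΦφ : ∀ v : V, Φ (e v * ξ) = e (φ v) * ξ := by
    intro v
    show S⁻¹ ((ef S)^[r] (e v * ξ)) = e ((s' ∘ₗ a) v + u0) * ξ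
    rw [ha, map_mul, he, hu0, hs', LinearMap.comp_apply]
    group
  have hΦφk : ∀ (k : ℕ) (v : V), Φ^[k] (e v * ξ) = e (φ^[k] v) * ξ := by
    intro k
    induction k with
    | zero => intro v; rfl
    | succ k ih => intro v; rw [Function.iterate_succ_apply, hΦφ, ih, Function.iterate_succ_apply]
  have hΦk : ∀ (k : ℕ) (x : B), Φ^[k] x = (S ^ (-(k : ℤ))) ((ef S)^[r * k] x) := by
    intro k
    induction k with
    | zero => intro x; simp
    | succ k ih =>
      intro x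
      rw [Function.iterate_succ_apply, ih]
      show (S ^ (-(k : ℤ))) ((ef S)^[r * k] (S⁻¹ ((ef S)^[r] x))) = _
      have h1 : S⁻¹ ((ef S)^[r] x) = (S ^ (-1 : ℤ)) ((ef S)^[r] x) := by rw [zpow_neg_one]
      rw [h1, ef_iter_zpow, ← MulAut.mul_apply, ← zpow_add, ← Function.iterate_add_apply]
      congr 2
      push_cast
      ring
  -- exponents
  have hd0 : d ≠ 0 := by rintro rfl; exact hnd (dvd_zero _)
  obtain ⟨v, r', hr', hdv⟩ := Nat.exists_eq_pow_mul_and_not_dvd hd0 p hp.out.ne_one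
  have hvμ : v ≤ μ := by
    by_contra hcon
    push Not at hcon
    exact hnd (hdv ▸ Dvd.dvd.mul_right (pow_dvd_pow p hcon) r')
  have hdd : d ∣ p ^ μ * r' := hdv ▸ Nat.mul_dvd_mul_right (pow_dvd_pow p hvμ) r'
  have hr'0 : r' ≠ 0 := by rintro rfl; exact hr' (dvd_zero _)
  -- a periodic point
  obtain ⟨n, L0, hL0, hn⟩ : ∃ n : V, ∃ L0 : ℕ, 0 < L0 ∧ φ^[L0] n = n := by
    obtain ⟨i, j, hij, hfij⟩ := Finite.exists_ne_map_eq_of_infinite (fun k : ℕ => φ^[k] 0)
    wlog hlt : i < j generalizing i j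
    · exact this j i hij.symm hfij.symm (by omega)
    refine ⟨φ^[i] 0, j - i, by omega, ?_⟩
    rw [← Function.iterate_add_apply, Nat.sub_add_cancel hlt.le]
    exact hfij.symm
  set x : B := e n * ξ with hx
  have hper0 : (ef S)^[r * L0] x = (S ^ (L0 : ℤ)) x := by
    have h1 := hΦφk L0 n
    rw [hn, ← hx, hΦk] at h1
    have h2 := congrArg (S ^ (L0 : ℤ)) h1
    rw [← MulAut.mul_apply, ← zpow_add, add_neg_cancel, zpow_zero] at h2
    exact h2
  have hzp : e z ^ p = 1 := by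
    rw [← unk_nsmul he, ← Nat.cast_smul_eq_nsmul K, CharP.cast_eq_zero, zero_smul, unk_zero he]
  have hsp : ∀ k : ℕ, ∀ y : B, (S ^ (p ^ (μ + 1) * k)) y = y := by
    intro k y
    rw [pow_succ, mul_assoc, zpow_conj S hsz' hM, pow_mul, hzp, one_pow]
    simp
  have hper1 : (ef S)^[r * L0 * p ^ (μ + 1)] x = x := by
    rw [ef_iter_mul S _ _ x hper0]
    have h3 : ((L0 : ℤ) * ((p ^ (μ + 1) : ℕ) : ℤ)) = ((p ^ (μ + 1) * L0 : ℕ) : ℤ) := by
      push_cast; ring
    rw [h3, zpow_natCast, hsp]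
  have hfd : (ef S)^[d] x = x :=
    hL.periodic (Nat.mul_pos (Nat.mul_pos hr hL0) (pow_pos hp.out.pos _)) hper1
  have hfdk : ∀ k, d ∣ k → (ef S)^[k] x = x := by
    rintro k ⟨k', rfl⟩
    rw [Function.iterate_mul]
    exact Function.iterate_fixed hfd k'
  have hA1 : Φ^[r' * p ^ μ] x = (S ^ (-((r' * p ^ μ : ℕ) : ℤ))) x := by
    rw [hΦk, hfdk]
    rw [mul_comm r' (p ^ μ)]
    exact Dvd.dvd.mul_left hdd r
  have hA2 : Φ^[r' * p ^ (μ + 1)] x = x := by
    rw [hΦk, hfdk]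
    · have h4 : S ^ (-((r' * p ^ (μ + 1) : ℕ) : ℤ)) = (S ^ (p ^ (μ + 1) * r'))⁻¹ := by
        rw [zpow_neg, zpow_natCast, mul_comm]
      rw [h4]
      conv_lhs => rw [← hsp r' x]
      rw [MulAut.inv_apply_self]
    · rw [mul_comm r' (p ^ (μ + 1)), pow_succ, mul_comm (p ^ μ) p, mul_assoc]
      exact Dvd.dvd.mul_left (Dvd.dvd.mul_left hdd p) r
  -- linear algebra
  have hxinj : ∀ n' : V, e n' * ξ = x → n' = n := by
    intro n' h
    exact hinj (mul_right_cancel h)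
  have h13 := hΦφk (r' * p ^ (μ + 1)) n
  rw [← hx, hA2] at h13
  have h14 : φ^[r' * p ^ μ] n = n := by
    refine hAFK V K p μ hfin (s' ∘ₗ a) u0 z ?_ ?_ n r' hr'0 (hxinj _ h13.symm)
    · intro h
      apply hnc
      rw [h, unk_zero he, one_mul, mul_one]
    · rw [LinearMap.comp_apply, haz, map_zero]
  have h15 := hΦφk (r' * p ^ μ) n
  rw [h14, ← hx, hA1] at h15
  -- so z ^ r' commutes with x
  have h16 : (S ^ (p ^ μ * r')) x = x := by
    have h17 : S ^ (-((r' * p ^ μ : ℕ) : ℤ)) = (S ^ (p ^ μ * r'))⁻¹ := by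
      rw [zpow_neg, zpow_natCast, mul_comm]
    rw [h17] at h15
    conv_lhs => rw [← h15]
    rw [MulAut.apply_inv_self]
  rw [zpow_conj S hsz' hM] at h16
  have h18 : Commute (e z ^ r') x := by
    rw [Commute, SemiconjBy]
    calc e z ^ r' * x = e z ^ r' * ((e z ^ r')⁻¹ * x * e z ^ r') := by rw [h16]
      _ = x * e z ^ r' := by group
  have h19 : Commute (e z) x := by
    have hcop : Nat.Coprime r' p := (Nat.Prime.coprime_iff_not_dvd hp.out).mpr hr' |>.symm
    have hb := Nat.gcd_eq_gcd_ab r' p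
    rw [Nat.Coprime.gcd_eq_one hcop] at hb
    have h20 : e z = (e z ^ r') ^ (Nat.gcdA r' p) := by
      calc e z = e z ^ ((1 : ℕ) : ℤ) := by simp
        _ = e z ^ ((r' : ℤ) * Nat.gcdA r' p + p * Nat.gcdB r' p) := by rw [hb]
        _ = (e z ^ r') ^ (Nat.gcdA r' p) := by
          rw [zpow_add, zpow_mul, zpow_mul, zpow_natCast, zpow_natCast, hzp, one_zpow, mul_one]
    rw [h20]
    exact h18.zpow_left _
  apply hnc
  have h21 : e z * (e n * ξ) = e n * ξ * e z := h19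
  have h22 : e z * e n = e n * e z := unk_comm he z n
  rw [← mul_assoc, h22, mul_assoc, mul_assoc] at h21
  exact mul_left_cancel h21

end Pool.ENR
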